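import Mathlib
import Pool.Agent.Helper493.Clifford
import Pool.Agent.Helper493.CubicGroup
import Pool.Agent.Helper493.CubicDims
import Pool.Agent.Helper493.CubicDims2

set_option autoImplicit false

namespace Pool.Agent.Results.MP_6441f0_al.AllPrimesGeFive

/-- The set of degrees of the irreducible complex representations of `G`. -/
def degreeSet (G : Type) [Group G] : Set ℕ :=
  {n : ℕ | ∃ (V : Type) (_ : AddCommGroup V) (_ : Module ℂ V)
      (_ : FiniteDimensional ℂ V) (ρ : Representation ℂ G V),
      Nontrivial V ∧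
      (∀ W : Submodule ℂ V, (∀ g : G, ∀ v ∈ W, ρ g v ∈ W) → W = ⊥ ∨ W = ⊤) ∧
      Module.finrank ℂ V = n}

/-- For every prime `p ≥ 5` and every `a ≥ 1` there is a `p`-group of order `p ^ (6 a)` with
character degree set `{1, p ^ a, p ^ (2 a)}` and nontrivial second derived subgroup. -/
theorem result (p : ℕ) (hp : p.Prime) (hp5 : 5 ≤ p) (a : ℕ) (ha : 1 ≤ a) :
    ∃ (G : Type) (_ : Group G) (_ : Finite G), Nat.card G = p ^ (6 * a) ∧ IsPGroup p G ∧
      degreeSet G = {1, p ^ a, p ^ (2 * a)} ∧ derivedSeries G 2 ≠ ⊥ := by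
  have hpf : Fact (Nat.Prime p) := ⟨hp⟩
  have hcardK : Nat.card (GaloisField p a) = p ^ a := GaloisField.card p a (by omega)
  have hfin : Finite (GaloisField p a) := inferInstance
  have h2 : (2 : GaloisField p a) ≠ 0 := by
    have := (CharP.cast_eq_zero_iff (GaloisField p a) p 2).not.2 (fun h => by
      have := Nat.le_of_dvd (by norm_num) h; omega)
    exact_mod_cast this
  have h3 : (3 : GaloisField p a) ≠ 0 := by
    have := (CharP.cast_eq_zero_iff (GaloisField p a) p 3).not.2 (fun h => by
      have := Nat.le_of_dvd (by norm_num) h; omega)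
    exact_mod_cast this
  have hcard : Nat.card (Helper493.CubicGroup.CG (GaloisField p a)) = p ^ (6 * a) := by
    rw [Helper493.CubicGroup.nat_card_CG, hcardK, ← pow_mul, mul_comm]
  refine ⟨Helper493.CubicGroup.CG (GaloisField p a), inferInstance, inferInstance, hcard,
    IsPGroup.of_card hcard, ?_, Helper493.CubicGroup.derived_ne_bot h2 h3⟩
  have hdegs := Helper493.CubicGroup.degs_eq (K := GaloisField p a) h2 h3
  rw [hcardK, ← pow_mul, mul_comm a 2] at hdegs
  exact hdegs

end Pool.Agent.Results.MP_6441f0_al.AllPrimesGeFive
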